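import Pool.Agent.Helper53.EN.MEMP

set_option autoImplicit false

/-! # ENCODING BY TM: membership in NP -/

namespace Pool.Agent.Helper82.EN

open Function

/-! ### certificates -/

theorem x_num_le (w : List Bool) (B u : ℕ) : x_num w B u ≤ B := by
  unfold x_num
  exact (List.length_filter_le _ _).trans (by simp)

theorem x_len_filter (B c : ℕ) :
    ((List.range B).filter (fun i => decide (i < c))).length = min c B := by
  induction B with
  | zero => simp
  | succ B ih =>
    rw [List.range_succ, List.filter_append, List.length_append, ih]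
    by_cases h : B < c
    · simp [h]
      omega
    · simp [h]
      omega

theorem x_cert (B U : ℕ) (F : ℕ → ℕ) (hF : ∀ u < U, F u ≤ B) :
    ∃ w : List Bool, w.length = U * B ∧ ∀ u < U, x_num w B u = F u := by
  refine ⟨(List.range (U * B)).map (fun i => decide (i % B < F (i / B))), by simp, fun u hu => ?_⟩
  unfold x_num
  rw [List.filter_congr (q := fun i => decide (i < F u)), x_len_filter,
    min_eq_left (hF u hu)]
  intro i hi
  have hi' : i < B := List.mem_range.1 hi
  have h1 : u * B + i < U * B := by nlinarith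
  have h2 : (u * B + i) % B = i := by
    rw [Nat.mul_comm, Nat.mul_add_mod, Nat.mod_eq_of_lt hi']
  have h3 : (u * B + i) / B = u := by
    rw [Nat.add_div_of_dvd_right (Dvd.intro_left u rfl), Nat.mul_div_cancel _ (by omega),
      Nat.div_eq_of_lt hi', add_zero]
  rw [List.getD_eq_getElem _ _ (by simpa using h1), List.getElem_map, List.getElem_range, h2, h3]

/-! ### symbols and moves as numbers -/

/-- code of a symbol -/
def x_cd (s : Tp) : ℕ := match s with
  | none => 0
  | some a => (a : ℕ) + 1

/-- decoding of symbols -/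
def x_dc (c : ℕ) : Tp := if h : 1 ≤ c ∧ c ≤ 5 then some ⟨c - 1, by omega⟩ else none

theorem x_dc_cd (s : Tp) : x_dc (x_cd s) = s := by
  revert s; decide

theorem x_cd_le (s : Tp) : x_cd s ≤ 5 := by
  revert s; decide

theorem x_cd_dc (c : ℕ) (hc : c ≤ 5) : x_cd (x_dc c) = c := by
  interval_cases c <;> decide

/-- code of a move -/
def x_mc (m : SignType) : ℕ := ((m : ℤ) + 1).toNat

/-- decoding of moves -/
def x_md (c : ℕ) : SignType := if c = 0 then -1 else if c = 1 then 0 else 1

theorem x_md_mc (m : SignType) : x_md (x_mc m) = m := by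
  revert m; decide

theorem x_mc_le (m : SignType) : x_mc m ≤ 2 := by
  revert m; decide

theorem x_mc_int (m : SignType) : ((x_mc m : ℕ) : ℤ) = (m : ℤ) + 1 := by
  revert m; decide

theorem x_md_int (c : ℕ) (hc : c ≤ 2) : ((x_md c : SignType) : ℤ) = (c : ℤ) - 1 := by
  interval_cases c <;> decide

/-! ### positions and tapes -/

theorem x_pos_zero (n : ℕ) (mo : ℕ → ℕ) : x_pos n mo 0 = n := by simp [x_pos]

theorem x_pos_succ (n : ℕ) (mo : ℕ → ℕ) (t : ℕ) (ht : t < n) :
    (x_pos n mo (t + 1) : ℤ) = x_pos n mo t + mo t - 1 := by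
  unfold x_pos
  rw [List.range_succ, List.map_append, List.sum_append]
  simp only [List.map_cons, List.map_nil, List.sum_cons, List.sum_nil]
  omega

/-- the tape at the time `t` -/
def x_TT (n : ℕ) (x : List (Fin 5)) (sy mo : ℕ → ℕ) (t : ℕ) (z : ℤ) : ℕ :=
  ((((List.range t).filter (fun u => decide ((x_pos n mo u : ℤ) = z + n))).reverse.map sy) ++
    [x_cd (tape x z)]).getD 0 0

theorem x_ini_eq (n : ℕ) (x : List (Fin 5)) (p : ℕ) :
    x_ini n (x.map Fin.val) p = x_cd (tape x ((p : ℤ) - n)) := by
  unfold x_ini tape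
  by_cases h : p < n
  · rw [if_pos h, if_pos (by omega)]
    rfl
  · rw [if_neg h, if_neg (by omega)]
    have h1 : ((p : ℤ) - n).toNat = p - n := by omega
    rw [h1, List.map_map, List.getD_eq_getElem?_getD, List.getElem?_map]
    cases x[p - n]? <;> rfl

theorem x_rd_eq (n : ℕ) (x : List (Fin 5)) (sy mo : ℕ → ℕ) (t : ℕ) :
    x_rd n (x.map Fin.val) sy mo t = x_TT n x sy mo t ((x_pos n mo t : ℤ) - n) := by
  unfold x_rd x_TT
  rw [x_ini_eq]
  have : (fun u => decide (x_pos n mo u = x_pos n mo t)) =
      (fun u => decide ((x_pos n mo u : ℤ) = (x_pos n mo t : ℤ) - n + n)) := by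
    funext u
    rw [decide_eq_decide]
    omega
  rw [this]

theorem x_TT_zero (n : ℕ) (x : List (Fin 5)) (sy mo : ℕ → ℕ) (z : ℤ) :
    x_TT n x sy mo 0 z = x_cd (tape x z) := by
  simp [x_TT]

theorem x_TT_succ (n : ℕ) (x : List (Fin 5)) (sy mo : ℕ → ℕ) (t : ℕ) (z : ℤ) :
    x_TT n x sy mo (t + 1) z = if z = (x_pos n mo t : ℤ) - n then sy t else
      x_TT n x sy mo t z := by
  unfold x_TT
  rw [List.range_succ, List.filter_append, List.reverse_append, List.map_append]
  by_cases h : z = (x_pos n mo t : ℤ) - n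
  · rw [if_pos h]
    have h1 : (List.filter (fun u => decide ((x_pos n mo u : ℤ) = z + n)) [t]) = [t] := by
      rw [List.filter_cons_of_pos (by simp only [decide_eq_true_eq]; omega), List.filter_nil]
    rw [h1]
    simp
  · rw [if_neg h]
    have h1 : (List.filter (fun u => decide ((x_pos n mo u : ℤ) = z + n)) [t]) = [] := by
      rw [List.filter_cons_of_neg (by simp only [decide_eq_true_eq]; omega), List.filter_nil]
    rw [h1]
    simp

theorem x_TT_le (n : ℕ) (x : List (Fin 5)) (sy mo : ℕ → ℕ) (hsy : ∀ t, sy t ≤ 5) (t : ℕ) (z : ℤ) :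
    x_TT n x sy mo t z ≤ 5 := by
  induction t with
  | zero => rw [x_TT_zero]; exact x_cd_le _
  | succ t ih =>
    rw [x_TT_succ]
    split_ifs
    · exact hsy t
    · exact ih

/-! ### from the certificate to the machine -/

/-- the machine given by a certificate -/
noncomputable def x_M (n k : ℕ) (y : List (Fin 5)) (st sy mo rd : ℕ → ℕ) (h0 : st 0 < k) :
    RTM k where
  start := ⟨st 0, h0⟩
  next := fun q s => open Classical in
    if h : ∃ t, t < n ∧ st t = q ∧ x_dc (rd t) = s ∧ st (t + 1) < k then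
      some (⟨st (h.choose + 1), h.choose_spec.2.2.2⟩, x_dc (sy h.choose), x_md (mo h.choose),
        y.getD h.choose 0)
    else none

theorem x_M_next (n k : ℕ) (y : List (Fin 5)) (st sy mo rd : ℕ → ℕ) (h0 : st 0 < k)
    (hrd : ∀ t, rd t ≤ 5) (hfew : ∀ t ≤ n, st t < k)
    (hcons : ∀ t < n, ∀ u < n, st t = st u → rd t = rd u →
      st (t + 1) = st (u + 1) ∧ sy t = sy u ∧ mo t = mo u ∧ y.getD t 0 = y.getD u 0)
    (t : ℕ) (ht : t < n) :
    (x_M n k y st sy mo rd h0).next ⟨st t, hfew t ht.le⟩ (x_dc (rd t)) =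
      some (⟨st (t + 1), hfew (t + 1) ht⟩, x_dc (sy t), x_md (mo t), y.getD t 0) := by
  have h : ∃ u, u < n ∧ st u = ((⟨st t, hfew t ht.le⟩ : Fin k) : ℕ) ∧ x_dc (rd u) = x_dc (rd t) ∧
      st (u + 1) < k := ⟨t, ht, rfl, rfl, hfew (t + 1) ht⟩
  have e : (x_M n k y st sy mo rd h0).next ⟨st t, hfew t ht.le⟩ (x_dc (rd t)) =
      some (⟨st (h.choose + 1), h.choose_spec.2.2.2⟩, x_dc (sy h.choose), x_md (mo h.choose),
        y.getD h.choose 0) := by
    unfold x_M
    simp only
    rw [dif_pos h]
  rw [e]
  obtain ⟨h1, h2, h3, h4⟩ := h.choose_spec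
  have h5 : rd h.choose = rd t := by
    have := congrArg x_cd h3
    rwa [x_cd_dc _ (hrd _), x_cd_dc _ (hrd _)] at this
  obtain ⟨c1, c2, c3, c4⟩ := hcons _ h1 t ht h2 h5
  rw [c2, c3, c4]
  simp only [c1]

/-- common form of the two acceptance conditions -/
def x_PF {k : ℕ} (M : RTM k) (P : Fin k → Tp → Prop) :
    Fin k → ℤ → (ℤ → Option (Fin 5)) → List (Fin 5) → Prop
  | q, p, T, [] => P q (T p)
  | q, p, T, b :: y => ∃ q' a m, M.next q (T p) = some (q', a, m, b) ∧
      x_PF M P q' (p + m) (Function.update T p a) y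

theorem x_pf_prints {k : ℕ} (M : RTM k) (y : List (Fin 5)) : ∀ q p T,
    M.Prints q p T y ↔ x_PF M (fun _ _ => True) q p T y := by
  induction y with
  | nil => intro q p T; exact Iff.rfl
  | cons b y ih =>
    intro q p T
    unfold RTM.Prints x_PF
    simp only [ih]

theorem x_pf_halt {k : ℕ} (M : RTM k) (y : List (Fin 5)) : ∀ q p T,
    M.PrintsHalt q p T y ↔ x_PF M (fun q s => M.next q s = none) q p T y := by
  induction y with
  | nil => intro q p T; exact Iff.rfl
  | cons b y ih =>
    intro q p T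
    unfold RTM.PrintsHalt x_PF
    simp only [ih]

theorem x_sound_aux (n k : ℕ) (x y : List (Fin 5)) (hn : y.length = n) (st sy mo : ℕ → ℕ)
    (hsy : ∀ t, sy t ≤ 5) (hmo : ∀ t, mo t ≤ 2) (hfew : ∀ t ≤ n, st t < k)
    (hcons : ∀ t < n, ∀ u < n, st t = st u →
      x_rd n (x.map Fin.val) sy mo t = x_rd n (x.map Fin.val) sy mo u →
      st (t + 1) = st (u + 1) ∧ sy t = sy u ∧ mo t = mo u ∧ y.getD t 0 = y.getD u 0)
    (P : Fin k → Tp → Prop)
    (hP : P ⟨st n, hfew n le_rfl⟩ (x_dc (x_rd n (x.map Fin.val) sy mo n))) (d : ℕ) :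
    ∀ t (ht : t + d = n),
    x_PF (x_M n k y st sy mo (x_rd n (x.map Fin.val) sy mo) (hfew 0 (by omega))) P
      ⟨st t, hfew t (by omega)⟩ ((x_pos n mo t : ℤ) - n)
      (fun z => x_dc (x_TT n x sy mo t z)) (y.drop t) := by
  induction d with
  | zero =>
    intro t ht
    have ht' : t = n := by omega
    subst ht'
    rw [List.drop_eq_nil_of_le hn.le]
    unfold x_PF
    simp only
    rw [← x_rd_eq]
    exact hP
  | succ d ih =>
    intro t ht
    have ht' : t < n := by omega
    rw [List.drop_eq_getElem_cons (by omega : t < y.length)]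
    unfold x_PF
    refine ⟨⟨st (t + 1), hfew _ ht'⟩, x_dc (sy t), x_md (mo t), ?_, ?_⟩
    · simp only
      rw [← x_rd_eq]
      rw [x_M_next n k y st sy mo _ _ (fun t => by
        rw [x_rd_eq]; exact x_TT_le n x sy mo hsy t _) hfew hcons t ht',
        List.getD_eq_getElem _ _ (by omega)]
    · have h1 := ih (t + 1) (by omega)
      have h2 : (x_pos n mo (t + 1) : ℤ) - n = (x_pos n mo t : ℤ) - n + (x_md (mo t) : ℤ) := by
        rw [x_pos_succ n mo t ht', x_md_int _ (hmo t)]
        ring
      rw [h2] at h1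
      convert h1 using 1
      funext z
      rw [x_TT_succ, Function.update_apply]
      split_ifs <;> rfl

theorem x_getD_val (y : List (Fin 5)) (t : ℕ) : (y.map Fin.val).getD t 0 = (y.getD t 0).val := by
  have := List.getD_map (f := Fin.val) (l := y) (n := t) (d := (0 : Fin 5))
  simpa using this

theorem x_sound (h : Bool) (I : Inst) (w : List Bool) (hw : x_R h (I, w) = true) :
    ∃ j ≤ I.2.2, ∃ M : RTM j, x_PF M (fun q s => h = true → M.next q s = none) M.start 0
      (tape I.1) I.2.1 := by
  obtain ⟨x, y, k⟩ := I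
  unfold x_R x_ver at hw
  simp only [List.length_map, Bool.and_eq_true] at hw
  set n := y.length with hn
  set st := x_st w (n + 6)
  set sy := x_sy w (n + 6)
  set mo := x_mo w (n + 6)
  obtain ⟨h1, h2, h3⟩ := hw
  have hfew : ∀ t ≤ n, st t < k := by
    intro t ht
    unfold x_few at h1
    rw [List.all_eq_true] at h1
    have := h1 t (List.mem_range.2 (by omega))
    simpa using this
  have hcons : ∀ t < n, ∀ u < n, st t = st u →
      x_rd n (x.map Fin.val) sy mo t = x_rd n (x.map Fin.val) sy mo u →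
      st (t + 1) = st (u + 1) ∧ sy t = sy u ∧ mo t = mo u ∧ y.getD t 0 = y.getD u 0 := by
    intro t ht u hu e1 e2
    unfold x_cons at h2
    rw [List.all_eq_true] at h2
    have h4 := h2 t (List.mem_range.2 ht)
    rw [List.all_eq_true] at h4
    have h5 := h4 u (List.mem_range.2 hu)
    simp only [e1, e2, decide_true, Bool.and_self, Bool.not_true, Bool.false_or,
      Bool.and_eq_true, decide_eq_true_eq, x_getD_val] at h5
    exact ⟨h5.1, h5.2.1, h5.2.2.1, Fin.ext h5.2.2.2⟩
  have hsy : ∀ t, sy t ≤ 5 := fun t => min_le_right _ _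
  have hmo : ∀ t, mo t ≤ 2 := fun t => min_le_right _ _
  refine ⟨k, le_rfl, x_M n k y st sy mo (x_rd n (x.map Fin.val) sy mo) (hfew 0 (by omega)), ?_⟩
  have := x_sound_aux n k x y hn.symm st sy mo hsy hmo hfew hcons
    (fun q s => h = true → (x_M n k y st sy mo (x_rd n (x.map Fin.val) sy mo)
      (hfew 0 (by omega))).next q s = none) ?_ n 0 (by omega)
  · rw [x_pos_zero, sub_self, List.drop_zero] at this
    have e : (fun z => x_dc (x_TT n x sy mo 0 z)) = tape x := by
      funext z
      rw [x_TT_zero, x_dc_cd]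
    rw [e] at this
    exact this
  · intro hh
    rw [hh] at h3
    simp only [Bool.not_true, Bool.false_or] at h3
    unfold x_halt at h3
    rw [List.all_eq_true] at h3
    unfold x_M
    simp only
    rw [dif_neg]
    rintro ⟨t, ht, e1, e2, -⟩
    have h5 := h3 t (List.mem_range.2 ht)
    have e3 : x_rd n (x.map Fin.val) sy mo t = x_rd n (x.map Fin.val) sy mo n := by
      have := congrArg x_cd e2
      rwa [x_cd_dc, x_cd_dc] at this
      · rw [x_rd_eq]; exact x_TT_le n x sy mo hsy _ _
      · rw [x_rd_eq]; exact x_TT_le n x sy mo hsy _ _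
    simp only [e3, decide_true, Bool.and_true, Bool.not_eq_true', decide_eq_false_iff_not] at h5
    exact h5 e1

/-! ### from the machine to the certificate -/

theorem x_seq {j : ℕ} (M : RTM j) (P : Fin j → Tp → Prop) (y : List (Fin 5)) : ∀ q0 p0 T0,
    x_PF M P q0 p0 T0 y →
    ∃ (q : ℕ → Fin j) (p : ℕ → ℤ) (T : ℕ → ℤ → Tp) (a : ℕ → Tp) (m : ℕ → SignType),
      q 0 = q0 ∧ p 0 = p0 ∧ T 0 = T0 ∧
      (∀ t < y.length, M.next (q t) (T t (p t)) = some (q (t + 1), a t, m t, y.getD t 0) ∧
        p (t + 1) = p t + m t ∧ T (t + 1) = Function.update (T t) (p t) (a t)) ∧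
      P (q y.length) (T y.length (p y.length)) := by
  induction y with
  | nil =>
    intro q0 p0 T0 h
    exact ⟨fun _ => q0, fun _ => p0, fun _ => T0, fun _ => none, fun _ => 0, rfl, rfl, rfl,
      fun t ht => absurd ht (Nat.not_lt_zero _), h⟩
  | cons b y ih =>
    intro q0 p0 T0 h
    obtain ⟨q', a', m', h1, h2⟩ := h
    obtain ⟨q, p, T, a, m, e1, e2, e3, e4, e5⟩ := ih _ _ _ h2
    refine ⟨fun t => Nat.casesOn t q0 q, fun t => Nat.casesOn t p0 p, fun t => Nat.casesOn t T0 T,
      fun t => Nat.casesOn t a' a, fun t => Nat.casesOn t m' m, rfl, rfl, rfl, ?_, e5⟩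
    intro t ht
    cases t with
    | zero =>
      refine ⟨?_, ?_, ?_⟩
      · show M.next q0 (T0 p0) = some (q 0, a', m', b)
        rw [h1, e1]
      · exact e2
      · exact e3
    | succ t => exact e4 t (by simpa using ht)

theorem x_complete (h : Bool) (I : Inst) (j : ℕ) (hj : j ≤ I.2.2) (M : RTM j)
    (hM : x_PF M (fun q s => h = true → M.next q s = none) M.start 0 (tape I.1) I.2.1) :
    ∃ w : List Bool, w.length = 3 * (I.2.1.length + 1) * (I.2.1.length + 6) ∧
      x_R h (I, w) = true := by
  obtain ⟨x, y, k⟩ := I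
  simp only at hj hM ⊢
  obtain ⟨q, p, T, a, m, e1, e2, e3, e4, e5⟩ := x_seq M _ y _ _ _ hM
  set n := y.length with hn
  classical
  set V : Finset (Fin j) := (Finset.range (n + 1)).image q with hV
  set r : Fin j → ℕ := fun s => (V.filter (fun s' => s' < s)).card with hr
  have hqV : ∀ t ≤ n, q t ∈ V := fun t ht =>
    Finset.mem_image.2 ⟨t, Finset.mem_range.2 (by omega), rfl⟩
  have hVc : V.card ≤ n + 1 := Finset.card_image_le.trans (by simp)
  have hr1 : ∀ t ≤ n, r (q t) ≤ n := by
    intro t ht
    have : V.filter (fun s' => s' < q t) ⊂ V := by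
      refine ⟨Finset.filter_subset _ _, fun hs => ?_⟩
      have := (Finset.mem_filter.1 (hs (hqV t ht))).2
      exact lt_irrefl _ this
    have := Finset.card_lt_card this
    show (V.filter (fun s' => s' < q t)).card ≤ n
    omega
  have hr2 : ∀ s, r s < k := by
    intro s
    have : (V.filter (fun s' => s' < s)) ⊆ Finset.Iio s := by
      intro s' hs'
      exact Finset.mem_Iio.2 (Finset.mem_filter.1 hs').2
    have := Finset.card_le_card this
    rw [Fin.card_Iio] at this
    show (V.filter (fun s' => s' < s)).card < k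
    omega
  have hr3 : ∀ s ∈ V, ∀ s' ∈ V, s < s' → r s < r s' := by
    intro s hs s' _ hss
    apply Finset.card_lt_card
    refine ⟨fun u hu => ?_, fun hsub => ?_⟩
    · rw [Finset.mem_filter] at hu ⊢
      exact ⟨hu.1, hu.2.trans hss⟩
    · have := (Finset.mem_filter.1 (hsub (Finset.mem_filter.2 ⟨hs, hss⟩))).2
      exact lt_irrefl _ this
  have hr4 : ∀ t ≤ n, ∀ u ≤ n, r (q t) = r (q u) → q t = q u := by
    intro t ht u hu e
    rcases lt_trichotomy (q t) (q u) with h1 | h1 | h1
    · exact absurd e (hr3 _ (hqV t ht) _ (hqV u hu) h1).ne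
    · exact h1
    · exact absurd e.symm (hr3 _ (hqV u hu) _ (hqV t ht) h1).ne
  obtain ⟨w, hw1, hw2⟩ := x_cert (n + 6) (3 * (n + 1)) (fun u =>
    if u % 3 = 0 then r (q (u / 3)) else if u % 3 = 1 then x_cd (a (u / 3)) else
      x_mc (m (u / 3))) (by
    intro u hu
    split_ifs
    · have := hr1 (u / 3) (by omega)
      omega
    · have := x_cd_le (a (u / 3))
      omega
    · have := x_mc_le (m (u / 3))
      omega)
  refine ⟨w, hw1, ?_⟩
  have hst : ∀ t ≤ n, x_st w (n + 6) t = r (q t) := by
    intro t ht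
    unfold x_st
    rw [hw2 _ (by omega)]
    rw [if_pos (by omega), show 3 * t / 3 = t by omega]
  have hsy : ∀ t ≤ n, x_sy w (n + 6) t = x_cd (a t) := by
    intro t ht
    unfold x_sy
    rw [hw2 _ (by omega)]
    rw [if_neg (by omega), if_pos (by omega), show (3 * t + 1) / 3 = t by omega,
      min_eq_left (x_cd_le _)]
  have hmo : ∀ t ≤ n, x_mo w (n + 6) t = x_mc (m t) := by
    intro t ht
    unfold x_mo
    rw [hw2 _ (by omega)]
    rw [if_neg (by omega), if_neg (by omega), show (3 * t + 2) / 3 = t by omega,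
      min_eq_left (x_mc_le _)]
  have hpos : ∀ t ≤ n, ((x_pos n (x_mo w (n + 6)) t : ℕ) : ℤ) - n = p t := by
    intro t
    induction t with
    | zero => intro _; rw [x_pos_zero, e2]; simp
    | succ t ih =>
      intro ht
      rw [x_pos_succ _ _ _ ht, (e4 t ht).2.1, ← ih (by omega), hmo t (by omega), x_mc_int]
      ring
  have hTT : ∀ t ≤ n, ∀ z, x_TT n x (x_sy w (n + 6)) (x_mo w (n + 6)) t z = x_cd (T t z) := by
    intro t
    induction t with
    | zero => intro _ z; rw [x_TT_zero, e3]
    | succ t ih =>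
      intro ht z
      rw [x_TT_succ, (e4 t ht).2.2, Function.update_apply, hpos t (by omega), ih (by omega),
        hsy t (by omega)]
      split_ifs <;> rfl
  have hrd : ∀ t ≤ n, x_rd n (x.map Fin.val) (x_sy w (n + 6)) (x_mo w (n + 6)) t =
      x_cd (T t (p t)) := by
    intro t ht
    rw [x_rd_eq, hTT t ht, hpos t ht]
  have hinj : ∀ s s' : Tp, x_cd s = x_cd s' → s = s' := by
    intro s s' e
    rw [← x_dc_cd s, e, x_dc_cd]
  unfold x_R x_ver
  simp only [List.length_map, Bool.and_eq_true]
  rw [← hn]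
  refine ⟨?_, ?_, ?_⟩
  · unfold x_few
    rw [List.all_eq_true]
    intro t ht
    rw [List.mem_range] at ht
    rw [hst t (by omega), decide_eq_true_eq]
    exact hr2 _
  · unfold x_cons
    rw [List.all_eq_true]
    intro t ht
    rw [List.all_eq_true]
    intro u hu
    rw [List.mem_range] at ht hu
    rw [hst t ht.le, hst u hu.le, hrd t ht.le, hrd u hu.le, hst (t + 1) ht, hst (u + 1) hu,
      hsy t ht.le, hsy u hu.le, hmo t ht.le, hmo u hu.le, x_getD_val, x_getD_val]
    by_cases h1 : r (q t) = r (q u) ∧ x_cd (T t (p t)) = x_cd (T u (p u))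
    · have h2 := hr4 t ht.le u hu.le h1.1
      have h3 := hinj _ _ h1.2
      have h4 := (e4 t ht).1
      rw [h2, h3, (e4 u hu).1] at h4
      simp only [Option.some.injEq, Prod.mk.injEq] at h4
      obtain ⟨f1, f2, f3, f4⟩ := h4
      rw [f1, f2, f3, f4]
      simp
    · have h2 : (decide (r (q t) = r (q u)) && decide (x_cd (T t (p t)) = x_cd (T u (p u)))) =
          false := by
        rw [Bool.and_eq_false_iff]
        by_cases h3 : r (q t) = r (q u)
        · right
          rw [decide_eq_false_iff_not]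
          exact fun h4 => h1 ⟨h3, h4⟩
        · left
          rw [decide_eq_false_iff_not]
          exact h3
      rw [h2]
      rfl
  · cases h with
    | false => rfl
    | true =>
      simp only [Bool.not_true, Bool.false_or]
      unfold x_halt
      rw [List.all_eq_true]
      intro t ht
      rw [List.mem_range] at ht
      rw [hst t ht.le, hst n le_rfl, hrd t ht.le, hrd n le_rfl]
      rw [Bool.not_eq_true', Bool.and_eq_false_iff]
      by_cases h3 : r (q t) = r (q n)
      · right
        rw [decide_eq_false_iff_not]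
        intro h4
        have h5 := hr4 t ht.le n le_rfl h3
        have h6 := hinj _ _ h4
        have h7 := (e4 t ht).1
        rw [h5, h6, e5 rfl] at h7
        cases h7
      · left
        rw [decide_eq_false_iff_not]
        exact h3

/-! ### the length of the code -/

theorem x_len_code {α : Type} [Pool.Agent.Helper52.Poly.Enc α] (l : List α) :
    l.length ≤ (Pool.Agent.Helper52.Poly.enc l).code.length := by
  induction l with
  | nil => simp
  | cons a l ih =>
    show l.length + 1 ≤ (Pool.Agent.Helper52.Poly.T.node (Pool.Agent.Helper52.Poly.enc a)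
      (Pool.Agent.Helper52.Poly.enc l)).code.length
    rw [Pool.Agent.Helper52.Poly.T.code]
    simp only [List.length_cons, List.length_append]
    omega

theorem x_len_inst (I : Inst) :
    I.2.1.length ≤ (Pool.Agent.Helper52.Poly.code I).length := by
  obtain ⟨x, y, k⟩ := I
  show y.length ≤ (Pool.Agent.Helper52.Poly.T.node (Pool.Agent.Helper52.Poly.enc x)
    (Pool.Agent.Helper52.Poly.T.node (Pool.Agent.Helper52.Poly.enc y)
      (Pool.Agent.Helper52.Poly.enc k))).code.length
  rw [Pool.Agent.Helper52.Poly.T.code, Pool.Agent.Helper52.Poly.T.code]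
  simp only [List.length_cons, List.length_append]
  have := x_len_code y
  omega

theorem x_mem (h : Bool) : Pool.Agent.Helper52.Poly.InNP (fun I : Inst =>
    ∃ j ≤ I.2.2, ∃ M : RTM j, x_PF M (fun q s => h = true → M.next q s = none) M.start 0
      (tape I.1) I.2.1) := by
  refine x_inNP _ (x_R h) (x_ptf_R Pool.Agent.Helper52.ES.bn h)
    (3 * (Polynomial.X + 1) * (Polynomial.X + 6)) (fun I => ⟨?_, ?_⟩)
  · rintro ⟨j, hj, M, hM⟩
    obtain ⟨w, hw1, hw2⟩ := x_complete h I j hj M hM
    refine ⟨w, ?_, hw2⟩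
    rw [hw1]
    simp only [Polynomial.eval_mul, Polynomial.eval_add, Polynomial.eval_X, Polynomial.eval_one,
      Polynomial.eval_ofNat]
    have := x_len_inst I
    gcongr
  · rintro ⟨w, -, hw⟩
    exact x_sound h I w hw

theorem st_MEM : ST_MEM := by
  constructor
  · have := x_mem false
    convert this using 1
    funext I
    simp only [EncTM, x_pf_prints, Bool.false_eq_true, false_implies]
  · have := x_mem true
    convert this using 1
    funext I
    simp only [EncTMHalt, x_pf_halt, forall_const]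

end Pool.Agent.Helper82.EN
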