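import Pool.Agent.Helper82.EN.Stmts2
import Pool.Agent.Helper52.ES.LINK
import Pool.Agent.Helper77.ES.BN

set_option autoImplicit false

/-! # ENCODING BY TM: the verifier, polynomial time -/

namespace Pool.Agent.Helper82.EN

open Pool.Agent.Helper58 Pool.Agent.Helper53.CL Pool.Agent.Helper52.Grid Function
open Pool.Agent.Helper52.ES (Wr EncI PBin BNS code_injective)

instance : EncI (Fin 5) := ⟨by
  intro a b h
  have h' : Pool.Agent.Helper52.Poly.enc (a : ℕ) = Pool.Agent.Helper52.Poly.enc (b : ℕ) := h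
  exact Fin.ext ((inferInstance : EncI ℕ).inj h')⟩

/-! ### the verifier -/

/-- the number of ones in the block `u` -/
def x_num (w : List Bool) (B u : ℕ) : ℕ :=
  ((List.range B).filter (fun i => w.getD (u * B + i) false)).length

/-- the state at the time `t` -/
def x_st (w : List Bool) (B t : ℕ) : ℕ := x_num w B (3 * t)

/-- the symbol written at the time `t` -/
def x_sy (w : List Bool) (B t : ℕ) : ℕ := min (x_num w B (3 * t + 1)) 5

/-- the move at the time `t` -/
def x_mo (w : List Bool) (B t : ℕ) : ℕ := min (x_num w B (3 * t + 2)) 2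

/-- the position at the time `t`, shifted by `n` -/
def x_pos (n : ℕ) (mo : ℕ → ℕ) (t : ℕ) : ℕ := n + ((List.range t).map mo).sum - t

/-- the content of a cell at the beginning -/
def x_ini (n : ℕ) (x : List ℕ) (p : ℕ) : ℕ := if p < n then 0 else (x.map (fun a => a + 1)).getD (p - n) 0

/-- the symbol read at the time `t` -/
def x_rd (n : ℕ) (x : List ℕ) (sy mo : ℕ → ℕ) (t : ℕ) : ℕ :=
  ((((List.range t).filter (fun u => decide (x_pos n mo u = x_pos n mo t))).reverse.map sy) ++
    [x_ini n x (x_pos n mo t)]).getD 0 0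

/-- consistency -/
def x_cons (n : ℕ) (x y : List ℕ) (st sy mo : ℕ → ℕ) : Bool :=
  (List.range n).all fun t => (List.range n).all fun u =>
    !(decide (st t = st u) && decide (x_rd n x sy mo t = x_rd n x sy mo u)) ||
      (decide (st (t + 1) = st (u + 1)) && (decide (sy t = sy u) && (decide (mo t = mo u) &&
        decide (y.getD t 0 = y.getD u 0))))

/-- the machine halts at the end -/
def x_halt (n : ℕ) (x : List ℕ) (st sy mo : ℕ → ℕ) : Bool :=
  (List.range n).all fun t =>
    !(decide (st t = st n) && decide (x_rd n x sy mo t = x_rd n x sy mo n))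

/-- number of states -/
def x_few (n : ℕ) (k : ℕ) (st : ℕ → ℕ) : Bool :=
  (List.range (n + 1)).all fun t => decide (st t + 1 ≤ k)

/-- the verifier -/
def x_ver (h : Bool) (x y : List ℕ) (k : ℕ) (w : List Bool) : Bool :=
  x_few y.length k (x_st w (y.length + 6)) &&
  (x_cons y.length x y (x_st w (y.length + 6)) (x_sy w (y.length + 6)) (x_mo w (y.length + 6)) &&
  (!h || x_halt y.length x (x_st w (y.length + 6)) (x_sy w (y.length + 6))
    (x_mo w (y.length + 6))))

section ptf

variable {γ : Type} [Enc γ]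

@[fun_prop] theorem x_ptf_num {w : γ → List Bool} {B u : γ → ℕ} (hw : PTf w) (hB : PTf B)
    (hu : PTf u) : PTf (fun x => x_num (w x) (B x) (u x)) := by
  unfold x_num
  fun_prop

@[fun_prop] theorem x_ptf_min {a b : γ → ℕ} (ha : PTf a) (hb : PTf b) :
    PTf (fun x => min (a x) (b x)) := by
  have : PTf (fun x => a x - (a x - b x)) := by fun_prop
  exact this.congr (fun x => by omega)

@[fun_prop] theorem x_ptf_st {w : γ → List Bool} {B u : γ → ℕ} (hw : PTf w) (hB : PTf B)
    (hu : PTf u) : PTf (fun x => x_st (w x) (B x) (u x)) := by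
  unfold x_st
  fun_prop

@[fun_prop] theorem x_ptf_sy {w : γ → List Bool} {B u : γ → ℕ} (hw : PTf w) (hB : PTf B)
    (hu : PTf u) : PTf (fun x => x_sy (w x) (B x) (u x)) := by
  unfold x_sy
  fun_prop

@[fun_prop] theorem x_ptf_mo {w : γ → List Bool} {B u : γ → ℕ} (hw : PTf w) (hB : PTf B)
    (hu : PTf u) : PTf (fun x => x_mo (w x) (B x) (u x)) := by
  unfold x_mo
  fun_prop

@[fun_prop] theorem x_ptf_pos {w : γ → List Bool} {n B t : γ → ℕ} (hw : PTf w) (hn : PTf n)
    (hB : PTf B) (ht : PTf t) : PTf (fun x => x_pos (n x) (x_mo (w x) (B x)) (t x)) := by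
  unfold x_pos
  have h : PTf (fun x => (List.range (t x)).map (fun u => x_mo (w x) (B x) u)) := by fun_prop
  fun_prop

@[fun_prop] theorem x_ptf_ini {l : γ → List ℕ} {n p : γ → ℕ} (hl : PTf l) (hn : PTf n)
    (hp : PTf p) : PTf (fun x => x_ini (n x) (l x) (p x)) := by
  unfold x_ini
  fun_prop

@[fun_prop] theorem x_ptf_rd {w : γ → List Bool} {l : γ → List ℕ} {n B t : γ → ℕ} (hw : PTf w)
    (hl : PTf l) (hn : PTf n) (hB : PTf B) (ht : PTf t) :
    PTf (fun x => x_rd (n x) (l x) (x_sy (w x) (B x)) (x_mo (w x) (B x)) (t x)) := by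
  unfold x_rd
  have h : PTf (fun x => (List.range (t x)).filter (fun u =>
    decide (x_pos (n x) (x_mo (w x) (B x)) u = x_pos (n x) (x_mo (w x) (B x)) (t x)))) := by
    fun_prop
  have h2 : PTf (fun x => ((List.range (t x)).filter (fun u =>
    decide (x_pos (n x) (x_mo (w x) (B x)) u =
      x_pos (n x) (x_mo (w x) (B x)) (t x)))).reverse.map (fun u => x_sy (w x) (B x) u)) := by
    fun_prop
  fun_prop

theorem x_ptf_cons {w : γ → List Bool} {l y : γ → List ℕ} {n B : γ → ℕ} (hw : PTf w)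
    (hl : PTf l) (hy : PTf y) (hn : PTf n) (hB : PTf B) :
    PTf (fun x => x_cons (n x) (l x) (y x) (x_st (w x) (B x)) (x_sy (w x) (B x))
      (x_mo (w x) (B x))) := by
  unfold x_cons
  fun_prop

theorem x_ptf_halt {w : γ → List Bool} {l : γ → List ℕ} {n B : γ → ℕ} (hw : PTf w)
    (hl : PTf l) (hn : PTf n) (hB : PTf B) :
    PTf (fun x => x_halt (n x) (l x) (x_st (w x) (B x)) (x_sy (w x) (B x))
      (x_mo (w x) (B x))) := by
  unfold x_halt
  fun_prop

theorem x_ptf_few (hBN : BNS) {w : γ → List Bool} {n B k : γ → ℕ} (hw : PTf w)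
    (hn : PTf n) (hB : PTf B) (hk : PBin k) :
    PTf (fun x => x_few (n x) (k x) (x_st (w x) (B x))) := by
  unfold x_few
  have h1 : PTf (fun p : γ × ℕ => decide (x_st (w p.1) (B p.1) p.2 + 1 ≤ k p.1)) := by
    refine hBN.le _ _ _ (hBN.un _ _ (by fun_prop)) ?_
    exact PTf.comp (g := fun x => (⟨k x⟩ : Wr ℕ)) hk (PTf.fst PTf.id)
  fun_prop

theorem x_ptf_ver (hBN : BNS) (h : Bool) {w : γ → List Bool} {l y : γ → List ℕ} {k : γ → ℕ}
    (hw : PTf w) (hl : PTf l) (hy : PTf y) (hk : PBin k) :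
    PTf (fun x => x_ver h (l x) (y x) (k x) (w x)) := by
  unfold x_ver
  have h0 : PTf (fun x => (y x).length + 6) := by fun_prop
  have h1 := x_ptf_few hBN (n := fun x => (y x).length) hw (by fun_prop) h0 hk
  have h2 := x_ptf_cons (n := fun x => (y x).length) hw hl hy (by fun_prop) h0
  have h3 := x_ptf_halt (n := fun x => (y x).length) hw hl (by fun_prop) h0
  exact PTf.and h1 (PTf.and h2 (PTf.or (PTf.const _) h3))

end ptf

/-! ### the components of the input -/

theorem x_ptf_letter : PTf (fun a : Wr (Fin 5) => (a.val : ℕ)) := by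
  have h1 : PTf (fun a : Wr (Fin 5) => (a.val : ℕ).bits) :=
    PTf.of_enc_eq (fun a => (Pool.Agent.Helper99.ETSP.conv_nat (a.val : ℕ)).symm)
  have h2 : PTf (fun v : List Bool => (bif v.getD 0 false then 1 else 0) +
    ((bif v.getD 1 false then 2 else 0) + (bif v.getD 2 false then 4 else 0))) := by fun_prop
  refine (PTf.comp h2 h1).congr (fun a => ?_)
  obtain ⟨a⟩ := a
  revert a
  decide

theorem x_ptf_word {γ : Type} [Enc γ] {l : γ → List (Fin 5)}
    (hl : PTf (fun x => (⟨l x⟩ : Wr (List (Fin 5))))) :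
    PTf (fun x => (l x).map Fin.val) := by
  have h1 := (Pool.Agent.Helper52.ES.wr_list l).1 hl
  have h2 : PTf (fun x => ((l x).map (fun a => (⟨a⟩ : Wr (Fin 5)))).map
      (fun a => (a.val : ℕ))) :=
    PTf.map (f := fun _ a => (a.val : ℕ)) h1 (PTf.comp x_ptf_letter (PTf.snd PTf.id))
  exact h2.congr (fun x => by rw [List.map_map]; rfl)

/-- the verifier for instances -/
def x_R (h : Bool) (q : Inst × List Bool) : Bool :=
  x_ver h (q.1.1.map Fin.val) (q.1.2.1.map Fin.val) q.1.2.2 q.2

theorem x_ptf_R (hBN : BNS) (h : Bool) : PTf (fun q : Wr (Inst × List Bool) => x_R h q.val) := by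
  have h1 := (Pool.Agent.Helper52.ES.wr_pair (fun q : Wr (Inst × List Bool) => q.val.1)
    (fun q => q.val.2)).1 PTf.id
  have h2 := (Pool.Agent.Helper52.ES.wr_pair (fun q : Wr (Inst × List Bool) => q.val.1.1)
    (fun q => q.val.1.2)).1 (PTf.fst h1)
  have h3 := (Pool.Agent.Helper52.ES.wr_pair (fun q : Wr (Inst × List Bool) => q.val.1.2.1)
    (fun q => q.val.1.2.2)).1 (PTf.snd h2)
  exact x_ptf_ver hBN h ((Pool.Agent.Helper52.ES.wr_bits _).1 (PTf.snd h1))
    (x_ptf_word (PTf.fst h2)) (x_ptf_word (PTf.fst h3)) (PTf.snd h3)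

/-- membership in NP from a verifier -/
theorem x_inNP {α : Type} [Pool.Agent.Helper52.Poly.Enc α] [EncI α] (L : α → Prop)
    (R : α × List Bool → Bool) (hR : PTf (fun q : Wr (α × List Bool) => R q.val))
    (p : Polynomial ℕ)
    (h : ∀ a, L a ↔ ∃ w : List Bool, w.length ≤ p.eval
      (Pool.Agent.Helper52.Poly.code a).length ∧ R (a, w) = true) :
    Pool.Agent.Helper52.Poly.InNP L := by
  refine ⟨R, p, ?_, h⟩
  refine (polyTime_iff Pool.Agent.Helper52.Poly.code code_injective (fun b => (b, b))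
    (fun a b h => (Prod.ext_iff.1 h).1) R).2 ?_
  have h1 : PTf (fun x : Coded (Pool.Agent.Helper52.Poly.code : α × List Bool → List Bool)
      code_injective => Pool.Agent.Helper52.Poly.code x.val) := PTf.of_enc_eq (fun _ => rfl)
  have h2 : PTf (fun x : Coded (Pool.Agent.Helper52.Poly.code : α × List Bool → List Bool)
      code_injective => (⟨x.val⟩ : Wr (α × List Bool))) :=
    PTf.of_code (h1.congr (fun x => (Pool.Agent.Helper52.ES.code_eq_wr x.val).symm))
  exact PTf.comp (g := fun q : Wr (α × List Bool) => R q.val) hR h2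

end Pool.Agent.Helper82.EN
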